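import Mathlib

set_option autoImplicit false

namespace Pool.Agent.Results.MP_f3871b_nt.Proof

open PowerSeries Finset
open scoped PowerSeries.WithPiTopology

noncomputable def g (a : ℤ) (k : ℕ) : ℤ⟦X⟧ :=
  PowerSeries.mk fun N => if k ∣ N ∧ N ≠ 0 then -(k : ℤ) * (-a) ^ (N / k) else 0

lemma g_spec (a : ℤ) (k : ℕ) (hk : 0 < k) :
    X * derivative ℤ (1 + C a * X ^ k : ℤ⟦X⟧) = (1 + C a * X ^ k) * g a k := by
  ext N
  have h1 : coeff N ((1 + C a * X ^ k) * g a k) =
      coeff N (g a k) + a * (if k ≤ N then coeff (N - k) (g a k) else 0) := by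
    rw [add_mul, one_mul, map_add, mul_assoc, coeff_C_mul, coeff_X_pow_mul']
  rw [h1]
  have h2 : coeff N (X * derivative ℤ (1 + C a * X ^ k : ℤ⟦X⟧)) =
      if N = k then (k : ℤ) * a else 0 := by
    rcases N with _ | N
    · simp [hk.ne]
    · rw [coeff_succ_X_mul, coeff_derivative, map_add, coeff_C_mul, coeff_X_pow, coeff_one]
      by_cases h : N + 1 = k
      · subst h; simp; ring
      · simp [h]
  rw [h2]
  simp only [g, coeff_mk]
  by_cases hd : k ∣ N
  · obtain ⟨m, rfl⟩ := hd
    rcases m with _ | _ | m
    · simp [hk.ne, hk.not_ge]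
    · simp [hk.ne', Nat.div_self hk]
    · have e1 : k * (m + 1 + 1) - k = k * (m + 1) := by
        rw [Nat.mul_succ k (m + 1)]; omega
      have e2 : k * (m + 1 + 1) ≠ k := by nlinarith
      have e3 : k ≤ k * (m + 1 + 1) := by nlinarith
      rw [e1, if_neg e2, if_pos e3, if_pos ⟨dvd_mul_right _ _, by positivity⟩,
        if_pos ⟨dvd_mul_right _ _, by positivity⟩, Nat.mul_div_cancel_left _ hk,
        Nat.mul_div_cancel_left _ hk]
      ring
  · have e1 : N ≠ k := fun h => hd (h ▸ dvd_rfl)
    rw [if_neg e1, if_neg (fun h => hd h.1)]
    split_ifs with h1 h2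
    · exact absurd ((Nat.dvd_sub_iff_left h1 dvd_rfl).1 h2.1) hd
    · simp
    · simp

noncomputable def u (n : ℕ → ℤ) (k : ℕ) : ℤ⟦X⟧ :=
  (1 + C (n (k + 1)) * X ^ (k + 1)) * (1 + C (-1 : ℤ) * X ^ (k + 1))

lemma logder (n : ℕ → ℤ) (M : ℕ) :
    X * derivative ℤ (∏ k ∈ range M, u n k) =
      (∏ k ∈ range M, u n k) * ∑ k ∈ range M, (g (n (k + 1)) (k + 1) + g (-1) (k + 1)) := by
  induction M with
  | zero => simp
  | succ M ih =>
    rw [prod_range_succ, sum_range_succ, Derivation.leibniz]
    have h1 := g_spec (n (M + 1)) (M + 1) (by omega)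
    have h2 := g_spec (-1) (M + 1) (by omega)
    have h3 : X * derivative ℤ (u n M) = u n M * (g (n (M + 1)) (M + 1) + g (-1) (M + 1)) := by
      unfold u
      rw [Derivation.leibniz]
      simp only [smul_eq_mul]
      linear_combination (1 + C (n (M + 1)) * X ^ (M + 1)) * h2 +
        (1 + C (-1 : ℤ) * X ^ (M + 1)) * h1
    simp only [smul_eq_mul]
    linear_combination (∏ k ∈ range M, u n k) * h3 + u n M * ih

lemma hasProd_u (n : ℕ → ℤ)
    (h : HasProd (fun k : ℕ => (1 + C (n (k + 1)) * X ^ (k + 1) : ℤ⟦X⟧))
      (PowerSeries.mk fun N => (Fintype.card (Nat.Partition N) : ℤ))) :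
    HasProd (u n) 1 := by
  have h2 := Nat.Partition.hasProd_powerSeriesMk_card_restricted ℤ (fun _ => True)
  have e : (PowerSeries.mk fun N => (#(Nat.Partition.restricted N (fun _ => True)) : ℤ)) =
      PowerSeries.mk fun N => (Fintype.card (Nat.Partition N) : ℤ) := by
    ext N
    simp [Nat.Partition.restricted]
  rw [e] at h2
  obtain ⟨Q, hQ⟩ := PowerSeries.WithPiTopology.multipliable_one_sub_X_pow ℤ
  have h3 := h2.mul hQ
  have h4 : (fun i : ℕ => (if True then ∑' j : ℕ, (X : ℤ⟦X⟧) ^ ((i + 1) * j) else 1) *
      (1 - X ^ (i + 1))) = fun _ => 1 := by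
    ext1 i
    simp only [if_true, pow_mul]
    exact PowerSeries.WithPiTopology.tsum_pow_mul_one_sub_of_constantCoeff_eq_zero (by simp)
  rw [h4] at h3
  have h5 := h3.unique hasProd_one
  have h6 := h.mul hQ
  rw [h5] at h6
  convert h6 using 2 with k
  simp [u, sub_eq_add_neg]

lemma recur (n : ℕ → ℤ) (h : HasProd (u n) 1) (N : ℕ) (hN : 0 < N) :
    ∑ d ∈ N.divisors, (d : ℤ) * ((-n d) ^ (N / d) + 1) = 0 := by
  have ht := h.tendsto_prod_nat
  have hj : ∀ j : ℕ, ∀ᶠ M in Filter.atTop, coeff j (∏ k ∈ range M, u n k) = coeff j (1 : ℤ⟦X⟧) := by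
    intro j
    have := ((PowerSeries.WithPiTopology.continuous_coeff ℤ j).tendsto _).comp ht
    rw [nhds_discrete, Filter.tendsto_pure] at this
    exact this
  have hall : ∀ᶠ M in Filter.atTop, N ≤ M ∧ ∀ j ∈ range (N + 1),
      coeff j (∏ k ∈ range M, u n k) = coeff j (1 : ℤ⟦X⟧) :=
    (Filter.eventually_ge_atTop N).and ((Filter.eventually_all_finset _).2 fun j _ => hj j)
  obtain ⟨M, hM, hc⟩ := hall.exists
  have hl := logder n M
  set F := ∏ k ∈ range M, u n k
  set G := ∑ k ∈ range M, (g (n (k + 1)) (k + 1) + g (-1) (k + 1)) with hG
  have hd : X ^ (N + 1) ∣ F - 1 := by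
    rw [X_pow_dvd_iff]
    intro m hm
    rw [map_sub, hc m (mem_range.2 hm), sub_self]
  obtain ⟨H, hH⟩ := hd
  have e1 : coeff N (F * G) = coeff N G := by
    have : F * G = G + X ^ (N + 1) * (H * G) := by
      rw [← mul_assoc, ← hH]; ring
    rw [this, map_add, coeff_X_pow_mul', if_neg (by omega), add_zero]
  have e2 : coeff N (X * derivative ℤ F) = 0 := by
    obtain ⟨N', rfl⟩ : ∃ N', N = N' + 1 := ⟨N - 1, by omega⟩
    rw [coeff_succ_X_mul, coeff_derivative, hc _ (mem_range.2 (by omega))]
    simp [coeff_one]
  rw [hl, e1, hG, map_sum] at e2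
  have e3 : ∑ d ∈ N.divisors, (d : ℤ) * ((-n d) ^ (N / d) + 1) =
      ∑ k ∈ range M, if k + 1 ∣ N then ((k + 1 : ℕ) : ℤ) * ((-n (k + 1)) ^ (N / (k + 1)) + 1)
        else 0 := by
    rw [← sum_filter]
    symm
    refine sum_bij (fun k _ => k + 1) ?_ ?_ ?_ ?_
    · intro k hk
      exact Nat.mem_divisors.2 ⟨(mem_filter.1 hk).2, hN.ne'⟩
    · intro a _ b _ hab
      simpa using hab
    · intro d hd
      have h1 := Nat.pos_of_mem_divisors hd
      have h2 := Nat.divisor_le hd
      refine ⟨d - 1, mem_filter.2 ⟨mem_range.2 (by omega), ?_⟩, by omega⟩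
      rw [Nat.sub_add_cancel h1]
      exact Nat.dvd_of_mem_divisors hd
    · intro k _
      rfl
  rw [e3, ← neg_eq_zero, ← sum_neg_distrib]
  refine Eq.trans (sum_congr rfl fun k _ => ?_) e2
  simp only [g, map_add, coeff_mk]
  by_cases hk : k + 1 ∣ N
  · simp only [hk, hN.ne', ne_eq, not_false_eq_true, and_self, if_true, neg_neg, one_pow]
    ring
  · simp [hk]

def L : List ℤ :=
  [0, 2, 4, 0, 14, -4, -8, -16, 196, -54, -92, -184, 144, -628, -1040, -2160, 41102, -7708,
   -12932, -27592, 54020, -98496, -173720, -364720, 853624, -1341970, -2383916, -4918536,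
   14259056, -18512788, -33191792, -69273664, 1800761284, -258224544, -475583636, -981494752,
   3515743638, -3714566308, -6852969896, -14013745200, 55014904804, -53634713548, -99486611648,
   -204560302840, 846700818536, -778423841172, -1463244969008, -2994414645856, 8984555113104,
   -11488736211694, -21616238128496, -44000285043600, 201648485299604, -169947155749828,
   -320778925467344, -655026855109648, 3168466819294192, -2521334533223520, -4798127584228556,
   -9770521225481752, 47778700786610832, -37800705069076948, -71982612293288000,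
   -146084013432289872, 3607924449493645454, -567572589674071384, -1082890518831859616,
   -2202596307308603176, 11341594861116945644, -8538839977053718080, -16383677197787556320,
   -33256101992039755024, 179029669582068567580, -129379903640264252428, -248364051699824555036,
   -502904110604711262336, 2691631438358481016664, -1962540893297167408192,
   -3772043515740809350448, -7651429238067273257632, 35939500478802321304580,
   -29810356735212112800942, -57533649952025610904196, -116522970565265462622280,
   639042063404174776289088, -455119572693909733744264, -878743267475844060027608,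
   -1776534560346144993966000, 10163896230868406022238312, -6954719321827979072466988,
   -13439639072552064866036396, -27207467887288210803746656, 152563419804412776984507344,
   -106378654656296243836226304, -206229938640576483459375200, -416987130525777130605222640,
   1775256409324553715890202232, -1633570361118852321516370108, -3167806833736280375483828300,
   -6396536267273748099149046936, 36463915846506760604361563378, -25101992083727314881122835748,
   -48707884945044006492730079888, -98458299046852769048287627600,
   581178520094900310522282989716, -386014557685850017370852932224,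
   -750932929433882056556793750716, -1516441839525358536369887946616,
   8724857600410744934216737858536, -5954468874466545445562495790388,
   -11586112940113888719121804698512, -23371640055818535895503754719600,
   129028771201185770218451731542896, -91899059443094294310274271313628,
   -178899938103413725680666125421152, -361201969016489585648920476167584,
   2100467570794341966408790846685684, -1419198015049691359624958334534084,
   -2768429465510094842783077122505976, -5584991347990997419008297148043296,
   33510101159540561220071530715985040, -21970710673386788738161274878563622,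
   -42866799111580194849336570915382796, -86402423370479669617162122272610000,
   506206695661689669515146262537502656, -340281496470533469984422140420354504,
   -664164770198533182451685849281947728, -1339694357956450643556592942644756736,
   18575625759766167862347767349084798916, -5272842341512105797691945587564692640,
   -10309141952534930927101084828058052152, -20780602560057310745854937858428593064,
   122111764904495917091410188938900502624, -81872447444646212076213672100974141376,
   -160097206267993324761576571273800502280, -322480293211145237447029337775259877664,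
   1958578449157307296130044126287574899436, -1271712203383361264914217510985878279308,
   -2487493197729998217608059554167584849472, -5013656744273971030021519395829217964472,
   29629506930045165516266346583290059478560, -19761214357751357892732693354369598363776,
   -38708891189673269686327622549581388143760, -77974633560729862411247370970543415627344,
   458408256306065272347173034851396115908118, -307596050597247392532139493880800492657944,
   -602609740774706273669082614325444449586116, -1213140514195154223852848615454376559624064,
   7194613855307918158195566316191021133361444, -4789421787603892218316395870635889719405188,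
   -9385152501209066244802797004510835943553208, -18903942949747812994149483039066160746791344,
   115360540514482737375904415026843244430413656, -74598935108380180617939071334980804036189964,
   -146359690505673390125128430120837745400517696,
   -294657269112707281234369226249024818303705984,
   1748182019068042016317574956643179900637882064,
   -1163615953288935444429685376366467372337525908,
   -2283230406020878617607118063299043200124870816,
   -4594280958582336925658936239235321885664553200,
   26165198765632261671966275928803693874543380452,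
   -18155299719983619034114033375620276339207761536,
   -35631126512863184172969074579575727323010512268,
   -71730141709492167764598028599572172743849449960,
   427023333421219156974112244448540691679468439164,
   -283348830180467576957107908281935515289135950528,
   -556681709443502577640654757707044303329768877608,
   -1120192871726680081018393165195713931233289613776,
   6842092202639362312541754238737254012983429089088,
   -4427744605404683871576630126484446351080954927938,
   -8699826319091483573031700020103455766810098283112,
   -17498489658829204889038828312026163694679725418984,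
   104352206927976811484921670770343987860143810530344,
   -69205904121472582115171018205848499982782655445428,
   -136001472972871596716881504099039011705202758270128,
   -273659734724982831077542860605141303965767546308464,
   1651330788397557004537930908692890036238590047012968,
   -1081959954160619559457574332382289813032474358896160,
   -2128197317197926706469109633893195878738840434912356,
   -4280713801301365526140634154051142971002064587105032,
   25511866393515434763970575243358999627072755983424180,
   -16933652385258440423849138421550377719544078698161348,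
   -33311097461443608816169917351885199952245301073261920,
   -66976336192851461027901452523516881761044044586510000,
   410274529415363961106384166366416130692640178708739024,
   -265080168331942730056546402085430696342679168933711864,
   -521527740245491172320588291240072047414429001128839936,
   -1048980904977201937677225183562750358758093370459717104,
   6265992080240701945405351710577044449401983565506977696,
   -4150483131190647189114150323798679065890967384872426368,
   -8172402232226715069609853043629831935814000963775548016,
   -16432203495776651214229815243999126743723443571895378304,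
   92268179805098754795112581316138136039864749070832560784,
   -65047686377064049366173983660183071669454460564394140028,
   -128090501986846923866135781622587883047852467390133261236,
   -257461068695286719634700339739085612889792625836007150880,
   1539319505879873873358047935081103575194969908065930479326,
   -1019630738743014134227133307323072717336423219405325403108,
   -2008081005024360538910201013257805806038717472016003587960,
   -4037532774520076069200909779751664830457796466790936772112,
   24728335202220561476890891375374999946415119361882715476080,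
   -15985871361912532141335577840380759452225463378653968802016,
   -31505500328575439183255800261616480928275043265598394467996,
   -63327607549062226076637116027598537092570631915953253783136,
   378248088150434254505764433338187528038030793675921190870384,
   -250839020579052319130998531151684884904748348569206789323304,
   -494395869211173933393247645339208606393745908703094196301008,
   -993454644918897745164668020940561249489192077095054922280304,
   6052006219208169219243102126450883228719729005486960313754772,
   -3936613773495066696366947470980363678580809975147813628716064,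
   -7759764334485989773564912108995463398392393484849315163052672,
   -15597199595461668646018665237510431326850576925436775955910984,
   93319090172372565235973973595788992773238617452172128184355204,
   -61790728003322080647321788490429011372662523248733440190265024,
   -121878580191141822320500818133345119768464942278257341686596440,
   -244912234569046701046140305469407331005904142003989678571750288,
   1497381996138008856266649781597980108710412612031735606693239856,
   -970620198616552686832225793931637785226113726813569136994627072,
   -1914607777157507981377854892658274233569981509492331674066174956,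
   -3846302449576395141096745230595956044377909185765116431872757200,
   23024504628594661302270930802878721479196634474234650947277173872,
   -15248838612641738488649462363311805381300953707329382624080155048,
   -30082076329387246373271147702235457251043916079627027442667736688,
   -60448310912893811198804966562824284021607947135741193903819753920,
   364270105085268831879295122537327526596477352968246726333579207664,
   -239601516291268300718583872551262327137718194520489745123794673690,
   -472944479085421200877548075768846396631066476821245739343216760916,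
   -950130279018524750472846346679105926824216543525658942065325471336,
   5681546025090188917639896026661382585835253986261955652582495925664,
   -3767328791916246608861766300369555377975496163848464276835438986788,
   -7436663430242630393899828007532178808545295120457735386529231395744,
   -14936325276447131427945333852551629837691623221567568627670787521280,
   91401311878576241227234915774526822046297310305698706202109583962356,
   -59242457912365354398581595384352149806447287314767266567918662865228,
   -116953617327340043467030634145143174280125333888433192125853201683132,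
   -234953018975517375537606613733370844920045999808509024321861151263040,
   1406870307642923854861434705880992361103855758695512547081161342946824,
   -931732047246525986162671530352009288010203130623703170077562109969280,
   -1840335725768907051817399251535176203723407323781618302680652252630560,
   -3696332771502896086994346235863846267421514428610081502346456488059872,
   22554549095477112082647283697420548701688737928288128929006125818536592,
   -14662631242974143813969273865086460712261277152494763137938640674627548,
   -28962727651597964124409641888610795936606516173166491518586473597269076,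
   -58158974203845071927435682764027119797524277724122615892555822847728848,
   348361338335051567682864378595284850088281149608988359651674742133277364,
   -230771821366201639219260694727565417461800167309020198702485182358560292,
   -455871354586378036145827236626445010660282905771572399594816785089107408,
   -915613053812279725125984114085940621484180045343344594532176419236760752,
   5597804118330862041669850046298828928845914594190708326761282454371106752,
   -3632507560847587047992179883955747422903806008995786845529162107798731360,
   -7179108885000280376655721169570546219849815018712255071338130809733606472,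
   -14416345771578211581619893551878474583325446298013018431207368526881614744,
   86262998342955969472474570432567744120465081832976285266386497493297562928,
   -57209530255589624742605210208360182939874191012908370000826371711485100224,
   -113071201282641830114777296415576573174564970019822618075811823291952267520,
   -227011855693008955290052784427977919472352315578398572351348422274707647840,
   1590849724504835579343787625642475411418805738247372462910363564024767477902]

def t (d : ℕ) : ℤ := if d % 2 = 1 then 1 else L.getD (d / 2) 0

lemma tab1 : ∀ N ∈ Icc (1 : ℕ) 512, ∑ d ∈ (Icc (1 : ℕ) N).filter (fun d : ℕ => d ∣ N),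
    ((d : ℕ) : ℤ) * ((-t d) ^ (N / d) + 1) = 0 := by
  decide +kernel

lemma tab2 : ∀ k ∈ Icc 1 64, 0 < t (8 * k) ∧ (k < 64 →
    t (8 * k + 2) < 0 ∧ t (8 * k + 4) < 0 ∧ t (8 * k + 6) < 0) := by
  decide +kernel

lemma tab3 : ∀ e ∈ Icc 129 256, ((2 * e : ℕ) : ℤ) * |t (2 * e)| ≤ 8 * 2 ^ e := by
  decide +kernel

lemma tab4 : ∀ e ∈ Icc 3 128, |t (2 * e)| ≤ 2 ^ e := by
  decide +kernel

def q (d : ℕ) : ℚ :=
  if d % 2 = 0 ∧ 6 ≤ d ∧ d ≤ 256 then (d : ℚ) * (((|t d| : ℤ) : ℚ) / 2 ^ (d / 2)) ^ (512 / d + 1) else 0

lemma tab5 : ∑ d ∈ range 257, q d ≤ 1 / 2 := by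
  decide +kernel

lemma split (N : ℕ) (hN : 0 < N) (a : ℕ → ℤ) :
    ∑ d ∈ N.divisors, (d : ℤ) * ((-a d) ^ (N / d) + 1) =
      ∑ d ∈ N.properDivisors, (d : ℤ) * ((-a d) ^ (N / d) + 1) + N * (-a N + 1) := by
  rw [← Nat.insert_self_properDivisors hN.ne', sum_insert Nat.self_notMem_properDivisors,
    Nat.div_self hN, pow_one, add_comm]

section
variable (n : ℕ → ℤ)
  (hr : ∀ N : ℕ, 0 < N → ∑ d ∈ N.divisors, (d : ℤ) * ((-n d) ^ (N / d) + 1) = 0)
include hr

lemma odd_eq (N : ℕ) (hN : N % 2 = 1) : n N = 1 := by
  induction N using Nat.strong_induction_on with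
  | _ N ih =>
    have h := hr N (by omega)
    rw [split N (by omega), sum_eq_zero, zero_add] at h
    · have : (N : ℤ) ≠ 0 := by omega
      have := (mul_eq_zero.1 h).resolve_left this
      omega
    · intro d hd
      obtain ⟨⟨m, hm⟩, hlt⟩ := Nat.mem_properDivisors.1 hd
      have ho : Odd (d * m) := hm ▸ Nat.odd_iff.2 hN
      have h1 := Nat.odd_mul.1 ho
      rw [ih d hlt (Nat.odd_iff.1 h1.1), hm, Nat.mul_div_cancel_left _ h1.1.pos, h1.2.neg_one_pow]
      simp

lemma tab_eq (N : ℕ) (h1 : 1 ≤ N) (h2 : N ≤ 512) : n N = t N := by
  induction N using Nat.strong_induction_on with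
  | _ N ih =>
    have h := hr N h1
    have h' := tab1 N (mem_Icc.2 ⟨h1, h2⟩)
    have e : (Icc 1 N).filter (fun d : ℕ => d ∣ N) = N.divisors := by
      ext d
      simp only [mem_filter, mem_Icc, Nat.mem_divisors]
      constructor
      · rintro ⟨_, h⟩; exact ⟨h, by omega⟩
      · rintro ⟨h, _⟩; exact ⟨⟨Nat.pos_of_dvd_of_pos h h1, Nat.le_of_dvd h1 h⟩, h⟩
    rw [e, split N h1] at h'
    rw [split N h1, sum_congr rfl (g := fun d : ℕ => (d : ℤ) * ((-t d) ^ (N / d) + 1))] at h
    · have h3 : (N : ℤ) * (n N - t N) = 0 := by linear_combination h' - h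
      have : (N : ℤ) ≠ 0 := by omega
      have := (mul_eq_zero.1 h3).resolve_left this
      omega
    · intro d hd
      obtain ⟨hd1, hlt⟩ := Nat.mem_properDivisors.1 hd
      rw [ih d hlt (Nat.pos_of_dvd_of_pos hd1 h1) (by omega)]

end

def w (m : ℕ) : ℚ := if 2 ≤ m then (1 / 2) ^ m else 0

lemma w_sum (K : ℕ) : ∑ m ∈ range (K + 2), w m = 1 / 2 - (1 / 2) ^ (K + 1) := by
  induction K with
  | zero => simp [w, sum_range_succ]
  | succ K ih =>
    rw [sum_range_succ, ih, w, if_pos (by omega)]
    ring

lemma w_nonneg (m : ℕ) : 0 ≤ w m := by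
  unfold w; split_ifs <;> positivity

lemma q_nonneg (m : ℕ) : 0 ≤ q m := by
  unfold q; split_ifs <;> positivity

lemma sum_w (N : ℕ) : ∑ d ∈ N.divisors, w (N / d) ≤ 1 / 2 := by
  rw [Nat.sum_div_divisors N w]
  have : ∑ m ∈ N.divisors, w m ≤ ∑ m ∈ range (N + 2), w m :=
    sum_le_sum_of_subset_of_nonneg (fun d hd => mem_range.2 (by
      have := Nat.divisor_le hd; omega)) fun _ _ _ => w_nonneg _
  rw [w_sum] at this
  have h : (0 : ℚ) ≤ (1 / 2) ^ (N + 1) := by positivity
  exact this.trans (by linarith)

lemma sum_q (N : ℕ) : ∑ d ∈ N.divisors, q d ≤ 1 / 2 := by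
  refine le_trans ?_ tab5
  rw [← sum_filter_add_sum_filter_not N.divisors (fun d => d ≤ 256),
    sum_eq_zero (s := filter (fun d => ¬ d ≤ 256) _), add_zero]
  · exact sum_le_sum_of_subset_of_nonneg (fun d hd => mem_range.2 (by
      have := (mem_filter.1 hd).2; omega)) fun _ _ _ => q_nonneg _
  · intro d hd
    rw [q, if_neg (fun h => (mem_filter.1 hd).2 h.2.2)]

lemma sum_d (N : ℕ) : ∑ d ∈ N.divisors, (2 * d : ℚ) ≤ 2 * N * N := by
  have h1 : ∑ d ∈ N.divisors, (2 * d : ℚ) ≤ N.divisors.card • (2 * N : ℚ) :=
    sum_le_card_nsmul _ _ _ fun d hd => by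
      have : (d : ℚ) ≤ N := by exact_mod_cast Nat.divisor_le hd
      linarith
  have h2 : (N.divisors.card : ℚ) ≤ N := by exact_mod_cast Nat.card_divisors_le_self N
  rw [nsmul_eq_mul] at h1
  have : (0 : ℚ) ≤ 2 * N := by positivity
  nlinarith

lemma big (h : ℕ) (hh : 257 ≤ h) : 16 * h * h ≤ 2 ^ h := by
  induction h, hh using Nat.le_induction with
  | base => decide +kernel
  | succ h hh ih => rw [pow_succ]; nlinarith

def mn (n : ℕ → ℤ) (h d : ℕ) : ℚ :=
  (if d = 2 * h then -(2 * h : ℚ) * n (2 * h) else 0) + (if d = 2 then 2 * (-2) ^ h else 0) +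
    (if d = 4 then 4 * (-4) ^ (h / 2) else 0)

lemma term (n : ℕ → ℤ) (h : ℕ) (hh : 257 ≤ h) (ho : ∀ d, d % 2 = 1 → n d = 1)
    (ht : ∀ d, 1 ≤ d → d ≤ 512 → n d = t d)
    (hb : ∀ e, 129 ≤ e → e < h → ((2 * e : ℕ) : ℤ) * |n (2 * e)| ≤ 8 * 2 ^ e)
    (d : ℕ) (hd : d ∈ (2 * h).divisors) :
    |(d : ℚ) * ((-(n d : ℚ)) ^ (2 * h / d) + 1) - mn n h d| ≤
      2 * d + 2 ^ h * q d + 2 ^ h * w (2 * h / d) := by
  have hq : 0 ≤ (2 : ℚ) ^ h * q d := mul_nonneg (by positivity) (q_nonneg _)
  have hw : 0 ≤ (2 : ℚ) ^ h * w (2 * h / d) := mul_nonneg (by positivity) (w_nonneg _)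
  have hd0 : (0 : ℚ) ≤ d := by positivity
  obtain ⟨m, hm⟩ := Nat.dvd_of_mem_divisors hd
  have hdp := Nat.pos_of_mem_divisors hd
  have hmd : 2 * h / d = m := by rw [hm, Nat.mul_div_cancel_left _ hdp]
  by_cases c1 : d = 2 * h
  · have : (d : ℚ) * ((-(n d : ℚ)) ^ (2 * h / d) + 1) - mn n h d = d := by
      rw [mn, if_pos c1, if_neg (by omega), if_neg (by omega), ← c1, Nat.div_self hdp]
      have : (d : ℚ) = 2 * h := by exact_mod_cast c1
      rw [← this]; ring
    rw [this, abs_of_nonneg hd0]; linarith
  by_cases c2 : d = 2
  · have : (d : ℚ) * ((-(n d : ℚ)) ^ (2 * h / d) + 1) - mn n h d = d := by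
      rw [mn, if_neg c1, if_pos c2, if_neg (by omega), c2, ht 2 (by omega) (by omega),
        Nat.mul_div_cancel_left _ (by omega), show t 2 = 2 by decide +kernel]
      push_cast; ring
    rw [this, abs_of_nonneg hd0]; linarith
  by_cases c3 : d = 4
  · have : (d : ℚ) * ((-(n d : ℚ)) ^ (2 * h / d) + 1) - mn n h d = d := by
      rw [mn, if_neg c1, if_neg c2, if_pos c3, c3, ht 4 (by omega) (by omega),
        show 2 * h / 4 = h / 2 by omega, show t 4 = 4 by decide +kernel]
      push_cast; ring
    rw [this, abs_of_nonneg hd0]; linarith
  have e0 : |(d : ℚ) * ((-(n d : ℚ)) ^ (2 * h / d) + 1) - mn n h d| ≤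
      d * |(n d : ℚ)| ^ m + d := by
    rw [mn, if_neg c1, if_neg c2, if_neg c3, add_zero, add_zero, sub_zero, abs_mul,
      abs_of_nonneg hd0, hmd, ← mul_add_one]
    refine mul_le_mul_of_nonneg_left ((abs_add_le _ _).trans ?_) hd0
    rw [abs_pow, abs_neg, abs_one]
  refine e0.trans ?_
  rcases Nat.mod_two_eq_zero_or_one d with c4 | c4
  swap
  · rw [ho d c4]; simp only [Int.cast_one, abs_one, one_pow]; linarith
  obtain ⟨e, rfl⟩ : ∃ e, d = 2 * e := ⟨d / 2, by omega⟩
  have hme : h = e * m := by nlinarith
  have hp : (2 : ℚ) ^ h = (2 ^ e) ^ m := by rw [hme, pow_mul]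
  have hp0 : (0 : ℚ) < 2 ^ e := by positivity
  have hk : |(n (2 * e) : ℚ)| ^ m = 2 ^ h * (|(n (2 * e) : ℚ)| / 2 ^ e) ^ m := by
    rw [hp, div_pow]; field_simp
  have hr0 : 0 ≤ |(n (2 * e) : ℚ)| / 2 ^ e := by positivity
  have h2h : (0 : ℚ) < 2 ^ h := by positivity
  rw [hk]
  by_cases c5 : e ≤ 128
  · have h1 : |(n (2 * e) : ℚ)| / 2 ^ e ≤ 1 := by
      rw [div_le_one hp0, ht _ (by omega) (by omega)]
      exact_mod_cast tab4 e (mem_Icc.2 ⟨by omega, c5⟩)
    have h2 : 512 / (2 * e) + 1 ≤ m := by
      rw [Nat.succ_le_iff, Nat.div_lt_iff_lt_mul hdp]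
      nlinarith
    have h3 := pow_le_pow_of_le_one hr0 h1 h2
    have h4 : q (2 * e) = ((2 * e : ℕ) : ℚ) * (|(n (2 * e) : ℚ)| / 2 ^ e) ^ (512 / (2 * e) + 1) := by
      rw [q, if_pos ⟨c4, by omega, by omega⟩, ht _ (by omega) (by omega),
        Nat.mul_div_cancel_left _ (by omega), Int.cast_abs]
    have h5 := mul_le_mul_of_nonneg_left (mul_le_mul_of_nonneg_left h3 hd0) h2h.le
    rw [← h4] at h5
    nlinarith
  · have hm2 : 2 ≤ m := by
      rcases m with _ | _ | m
      · omega
      · omega
      · omega
    have heh : e < h := by nlinarith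
    have h1 : ((2 * e : ℕ) : ℚ) * (|(n (2 * e) : ℚ)| / 2 ^ e) ≤ 8 := by
      rw [← mul_div_assoc, div_le_iff₀ hp0]
      exact_mod_cast hb e (by omega) heh
    have h256 : (256 : ℚ) ≤ ((2 * e : ℕ) : ℚ) := by exact_mod_cast (by omega : 256 ≤ 2 * e)
    set r := |(n (2 * e) : ℚ)| / 2 ^ e
    have h2 : r ≤ 1 / 32 := by nlinarith
    obtain ⟨j, rfl⟩ : ∃ j, m = j + 2 := ⟨m - 2, by omega⟩
    have h3 : r ^ j ≤ (1 / 2) ^ j := pow_le_pow_left₀ hr0 (by linarith) j
    have h4 : ((2 * e : ℕ) : ℚ) * r * r ≤ 1 / 4 := by nlinarith
    have h5 : ((2 * e : ℕ) : ℚ) * r ^ (j + 2) ≤ (1 / 2) ^ (j + 2) := by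
      have := mul_le_mul h4 h3 (by positivity) (by norm_num)
      calc _ = ((2 * e : ℕ) : ℚ) * r * r * r ^ j := by ring
        _ ≤ _ := this
        _ = _ := by ring
    have h6 := mul_le_mul_of_nonneg_left h5 h2h.le
    rw [hmd, w, if_pos hm2]
    nlinarith

lemma step (n : ℕ → ℤ) (h : ℕ) (hh : 257 ≤ h)
    (hr : ∑ d ∈ (2 * h).divisors, (d : ℤ) * ((-n d) ^ (2 * h / d) + 1) = 0)
    (ho : ∀ d, d % 2 = 1 → n d = 1)
    (ht : ∀ d, 1 ≤ d → d ≤ 512 → n d = t d)
    (hb : ∀ e, 129 ≤ e → e < h → ((2 * e : ℕ) : ℤ) * |n (2 * e)| ≤ 8 * 2 ^ e) :
    |-(2 * h : ℚ) * n (2 * h) + 2 * (-2) ^ h + (if h % 2 = 0 then 4 * (-4) ^ (h / 2) else 0)| ≤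
      3 / 2 * 2 ^ h := by
  have hr' : ∑ d ∈ (2 * h).divisors, (d : ℚ) * ((-(n d : ℚ)) ^ (2 * h / d) + 1) = 0 := by
    exact_mod_cast hr
  have e1 : ∑ d ∈ (2 * h).divisors, mn n h d = -(2 * h : ℚ) * n (2 * h) + 2 * (-2) ^ h +
      (if h % 2 = 0 then 4 * (-4) ^ (h / 2) else 0) := by
    simp only [mn, sum_add_distrib, sum_ite_eq']
    rw [if_pos (Nat.mem_divisors_self _ (by omega)),
      if_pos (Nat.mem_divisors.2 ⟨dvd_mul_right _ _, by omega⟩)]
    congr 1
    refine if_congr ?_ rfl rfl
    rw [Nat.mem_divisors]
    omega
  rw [← e1, ← abs_neg, ← zero_sub, ← hr', ← sum_sub_distrib]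
  refine (abs_sum_le_sum_abs _ _).trans ((sum_le_sum (term n h hh ho ht hb)).trans ?_)
  rw [sum_add_distrib, sum_add_distrib, ← mul_sum, ← mul_sum, ← mul_sum]
  have a1 := sum_d (2 * h)
  have h2h : (0 : ℚ) < 2 ^ h := by positivity
  have a2 := mul_le_mul_of_nonneg_left (sum_q (2 * h)) h2h.le
  have a3 := mul_le_mul_of_nonneg_left (sum_w (2 * h)) h2h.le
  have a4 : (16 * h * h : ℚ) ≤ 2 ^ h := by exact_mod_cast big h hh
  rw [← mul_sum] at a1
  push_cast at a1
  nlinarith

lemma cases (h : ℕ) :
    (2 * (-2 : ℚ) ^ h + (if h % 2 = 0 then 4 * (-4) ^ (h / 2) else 0)) =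
      if h % 4 = 0 then 6 * 2 ^ h else -2 * 2 ^ h := by
  by_cases c : h % 2 = 0
  · obtain ⟨e, rfl⟩ : ∃ e, h = 2 * e := ⟨h / 2, by omega⟩
    have e1 : (-2 : ℚ) ^ (2 * e) = 2 ^ (2 * e) := Even.neg_pow ⟨e, by ring⟩ _
    have e2 : (4 : ℚ) ^ e = 2 ^ (2 * e) := by rw [pow_mul]; norm_num
    rw [if_pos c, Nat.mul_div_cancel_left _ (by omega), e1]
    split_ifs with c2
    · rw [Even.neg_pow (Nat.even_iff.2 (by omega)), e2]; ring
    · rw [Odd.neg_pow (Nat.odd_iff.2 (by omega)), e2]; ring
  · rw [if_neg c, if_neg (by omega), Odd.neg_pow (Nat.odd_iff.2 (by omega))]; ring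

theorem result (n : ℕ → ℤ)
    (h : HasProd (fun k : ℕ => (1 + C (n (k + 1)) * X ^ (k + 1) : ℤ⟦X⟧))
      (PowerSeries.mk fun N => (Fintype.card (Nat.Partition N) : ℤ))) :
    ∀ k : ℕ, 1 ≤ k →
      n (8 * k + 2) < 0 ∧ n (8 * k + 4) < 0 ∧ n (8 * k + 6) < 0 ∧ 0 < n (8 * k) := by
  have hr := recur n (hasProd_u n h)
  have ho := odd_eq n hr
  have ht := tab_eq n hr
  have hb : ∀ e, 129 ≤ e → ((2 * e : ℕ) : ℤ) * |n (2 * e)| ≤ 8 * 2 ^ e := by
    intro e
    induction e using Nat.strong_induction_on with
    | _ e ih =>
      intro he
      by_cases c : e ≤ 256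
      · rw [ht _ (by omega) (by omega)]
        exact tab3 e (mem_Icc.2 ⟨he, c⟩)
      · have hs := step n e (by omega) (hr _ (by omega)) ho ht (fun j h1 h2 => ih j h2 h1)
        rw [add_assoc, cases, abs_le] at hs
        have h2h : (0 : ℚ) < 2 ^ e := by positivity
        have : |(2 * e : ℚ) * n (2 * e)| ≤ 8 * 2 ^ e := by
          rw [abs_le]
          split_ifs at hs <;> constructor <;> linarith [hs.1, hs.2]
        rw [abs_mul, abs_of_nonneg (by positivity)] at this
        exact_mod_cast this
  have hs : ∀ e, 257 ≤ e → if e % 4 = 0 then 0 < n (2 * e) else n (2 * e) < 0 := by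
    intro e he
    have hs := step n e he (hr _ (by omega)) ho ht (fun j h1 _ => hb j h1)
    rw [add_assoc, cases, abs_le] at hs
    have h2h : (0 : ℚ) < 2 ^ e := by positivity
    have he0 : (0 : ℚ) < 2 * e := by
      have : 0 < e := by omega
      positivity
    split_ifs at hs ⊢
    · have : (0 : ℚ) < 2 * e * n (2 * e) := by linarith [hs.2]
      exact_mod_cast (mul_pos_iff_of_pos_left he0).1 this
    · have : (0 : ℚ) < 2 * e * -n (2 * e) := by linarith [hs.1]
      have := (mul_pos_iff_of_pos_left he0).1 this
      have : (n (2 * e) : ℚ) < 0 := by linarith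
      exact_mod_cast this
  intro k hk
  have a1 : 0 < n (8 * k) := by
    by_cases c : k ≤ 64
    · rw [ht _ (by omega) (by omega)]
      exact (tab2 k (mem_Icc.2 ⟨hk, c⟩)).1
    · have := hs (4 * k) (by omega)
      rw [if_pos (by omega), show 2 * (4 * k) = 8 * k by ring] at this
      exact this
  by_cases c : k < 64
  · rw [ht (8 * k + 2) (by omega) (by omega), ht (8 * k + 4) (by omega) (by omega),
      ht (8 * k + 6) (by omega) (by omega)]
    obtain ⟨b1, b2, b3⟩ := (tab2 k (mem_Icc.2 ⟨hk, c.le⟩)).2 c
    exact ⟨b1, b2, b3, a1⟩
  · have b1 := hs (4 * k + 1) (by omega)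
    have b2 := hs (4 * k + 2) (by omega)
    have b3 := hs (4 * k + 3) (by omega)
    rw [if_neg (by omega), show 2 * (4 * k + 1) = 8 * k + 2 by ring] at b1
    rw [if_neg (by omega), show 2 * (4 * k + 2) = 8 * k + 4 by ring] at b2
    rw [if_neg (by omega), show 2 * (4 * k + 3) = 8 * k + 6 by ring] at b3
    exact ⟨b1, b2, b3, a1⟩

end Pool.Agent.Results.MP_f3871b_nt.Proof
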